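import Pool.Agent.TH214.Q.GrMain
import Pool.Agent.W418.Z.Reg
import Pool.Agent.W558.WT.LU

/-! Quotients of products of surfaces by finite diagonalizable group schemes: projective models of
the field of fractions of degree zero, and smooth charts over the affine quotient. The proof is the
one of `Pool.Agent.TH214.Q.quotGr`. -/

set_option autoImplicit false
set_option linter.unusedVariables false
set_option linter.unusedSectionVars false

universe u

open Polynomial AlgebraicGeometry CategoryTheory TensorProduct Pool.Agent.W558.WT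
  Pool.Agent.H920R2 Pool.Agent.W410.WT Pool.Agent.W558 Pool.Agent.TH214.Q

namespace Pool.Agent.Q83.ZQ

section main

variable (hart : WT_art.{u})
  (p : ℕ) [Fact p.Prime] (k : Type u) [Field k] [PerfectField k] [CharP k p] (n : ℕ)
  (A K : Fin n → Type u) [∀ i, CommRing (A i)] [∀ i, IsDomain (A i)] [∀ i, Algebra k (A i)]
  [∀ i, Algebra.FiniteType k (A i)] [∀ i, Field (K i)] [∀ i, Algebra k (K i)]
  [∀ i, Algebra (A i) (K i)] [∀ i, IsScalarTower k (A i) (K i)] [∀ i, IsFractionRing (A i) (K i)]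
  (B : Type u) [CommRing B] [IsDomain B] [Algebra k B] (j : ∀ i, A i →ₐ[k] B) (hj : IsTP j)
  {Λ : Type} [AddCommGroup Λ] [Finite Λ] [DecidableEq Λ]
  (𝒜 : ∀ i, Λ → Submodule k (A i)) [∀ i, GradedAlgebra (𝒜 i)]
  (ℬ : Λ → Submodule k B) [GradedAlgebra ℬ] (hB : ∀ i x, ∀ a ∈ 𝒜 i x, j i a ∈ ℬ x)

include hart hj hB

/-- Quotients of products of surfaces by finite diagonalizable group schemes. -/
theorem quotGr_core
    (hcard : ∀ i, ¬ p ^ 2 ∣ Nat.card (suppG (𝒜 i)))
    (h2 : ∀ i, Algebra.trdeg k (F0 (𝒜 i) (K i)) = 2)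
    (hM : ∀ i, HasModel k (F0 (𝒜 i) (K i)))
    (Inv : Subalgebra k B) (hInv : ∀ b, b ∈ Inv ↔ b ∈ ℬ 0) :
    ∃ (N : Type u) (_ : Field N) (_ : Algebra k N) (_ : Algebra Inv N)
      (_ : IsScalarTower k Inv N) (_ : IsFractionRing Inv N),
      (∃ (T I : Type) (_ : Finite T) (_ : Fintype I) (M : LM (⊥ : Subalgebra k N) ⊤ T I),
        Frc M) ∧
      ∃ (T I : Type) (_ : Finite T) (_ : Fintype I),
        Nonempty (LM (IsScalarTower.toAlgHom k Inv N).range
          (IsScalarTower.toAlgHom k Inv N).range T I) := by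
  classical
  have hp : p.Prime := Fact.out
  have hN0 : Nat.card Λ ≠ 0 := Nat.card_pos.ne'
  let s := (Nat.card Λ).factorization p
  let m := Nat.card Λ / p ^ s
  have hqm : p ^ s * m = Nat.card Λ := Nat.ordProj_mul_ordCompl_eq_self _ _
  have hcop : Nat.Coprime (p ^ s) m := (Nat.coprime_ordCompl hp hN0).pow_left s
  have hm : (m : k) ≠ 0 := fun h =>
    Nat.not_dvd_ordCompl hp hN0 ((CharP.cast_eq_zero_iff k p m).1 h)
  let E := FractionRing B
  have hcE : CharP E p := charP_of_injective_algebraMap (algebraMap k E).injective p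
  have hcK : ∀ i, CharP (K i) p := fun i =>
    charP_of_injective_algebraMap (algebraMap k (K i)).injective p
  obtain ⟨e, he, hΦ⟩ := exists_e2 (K := K) (E := E) hj
  -- the factors
  choose S hS hSi using fun i => exists_SG (k := k) (𝒜 i)
  choose π hπ hpπ hπgen using fun i => exists_wild_gen (p := p) (s := s) (suppG (𝒜 i)) (hcard i)
  let F : ∀ i, IntermediateField k (K i) := fun i => F0 (𝒜 i) (K i)
  let x : ∀ i, A i := fun i => repG (𝒜 i) (π i)
  have hxm : ∀ i, x i ∈ 𝒜 i (π i) := fun i => repG_mem (hπ i)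
  have hx0 : ∀ i, x i ≠ 0 := fun i => repG_ne _ _
  have hxF : ∀ i, algebraMap (A i) (K i) (x i) ^ p ∈ F i := by
    intro i
    rw [← map_pow]
    refine mem_F0_of_zero (𝒜 i) (K i) ?_
    have h3 := SetLike.pow_mem_graded p (hxm i)
    rwa [hpπ] at h3
  let L0 : IntermediateField k E := IntermediateField.adjoin k {y | ∃ i, ∃ x ∈ F i, y = e i x}
  have hL0 : ∀ i, ∀ y ∈ F i, e i y ∈ L0 := fun i y hy =>
    IntermediateField.subset_adjoin k _ ⟨i, y, hy, rfl⟩
  -- the subring of invariants
  have hjInv : ∀ i, ∀ a ∈ S i, j i a ∈ Inv := by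
    intro i a ha
    rw [hInv]
    exact hB i 0 a (hS i a ha).1
  let G0 := (i : Fin n) × Fin (S i).card
  let eS : ∀ i, {a // a ∈ S i} ≃ Fin (S i).card := fun i => (S i).equivFin
  let aG : G0 → Inv := fun b => ⟨j b.1 ((eS b.1).symm b.2).1,
    hjInv b.1 _ ((eS b.1).symm b.2).2⟩
  let R0 : Subalgebra k Inv := Algebra.adjoin k (Set.range aG)
  have hmR : ∀ i, ∀ a ∈ S i, ∃ r ∈ R0, (r : B) = j i a := by
    intro i a ha
    refine ⟨aG ⟨i, eS i ⟨a, ha⟩⟩, Algebra.subset_adjoin ⟨_, rfl⟩, ?_⟩
    change j i ((eS i).symm (eS i ⟨a, ha⟩)).1 = j i a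
    rw [Equiv.symm_apply_apply]
  have hintB : ∀ b : B, IsIntegral R0 b := hj.integral Inv S hSi R0 hmR
  have hSF : ∀ i, ∀ a ∈ S i, algebraMap (A i) (K i) a ∈ F i := fun i a ha =>
    mem_F0_of_zero (𝒜 i) (K i) (hS i a ha).1
  -- the model of the compositum
  obtain ⟨e', φ, he', hφe, hφi, hφf⟩ := exists_L0 e hΦ F L0 rfl
  have hrF : ∀ i y, y ∈ suppG (𝒜 i) ∧ m • y = 0 →
      algebraMap (A i) (K i) (repG (𝒜 i) y) ^ m ∈ F i := by
    rintro i y ⟨hy, hy'⟩
    rw [← map_pow]
    refine mem_F0_of_zero (𝒜 i) (K i) ?_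
    have h3 := SetLike.pow_mem_graded m (repG_mem hy)
    rwa [hy'] at h3
  let G1 := G0 ⊕ (Λ ⊕ Unit)
  have hfΛ : Fintype Λ := Fintype.ofFinite Λ
  let c : ∀ i, G1 → F i := fun i => Sum.elim
    (fun b => if h : b.1 = i then ⟨algebraMap (A i) (K i) ((eS i).symm (h ▸ b.2)).1,
      hSF i _ ((eS i).symm (h ▸ b.2)).2⟩ else 1)
    (Sum.elim (fun y => if h : y ∈ suppG (𝒜 i) ∧ m • y = 0 then
      ⟨algebraMap (A i) (K i) (repG (𝒜 i) y) ^ m, hrF i y h⟩ else 1)
      (fun _ => ⟨algebraMap (A i) (K i) (x i) ^ p, hxF i⟩))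
  have hAK : ∀ i (a : A i), a ≠ 0 → algebraMap (A i) (K i) a ≠ 0 := by
    intro i a ha
    rw [Ne, IsFractionRing.to_map_eq_zero_iff]
    exact ha
  have hc0 : ∀ i b, c i b ≠ 0 := by
    rintro i (b | y | u)
    · change (if h : b.1 = i then _ else _) ≠ (0 : F i)
      split_ifs with h
      · intro h1
        exact hAK i _ (hS i _ ((eS i).symm (h ▸ b.2)).2).2 (congrArg Subtype.val h1)
      · exact one_ne_zero
    · change (if h : y ∈ suppG (𝒜 i) ∧ m • y = 0 then _ else _) ≠ (0 : F i)
      split_ifs with h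
      · intro h1
        exact pow_ne_zero m (hAK i _ (repG_ne (𝒜 i) y)) (congrArg Subtype.val h1)
      · exact one_ne_zero
    · intro h1
      exact pow_ne_zero p (hAK i _ (hx0 i)) (congrArg Subtype.val h1)
  let ι : Fin n → Type := fun i => PLift (π i ≠ 0)
  have hιf : ∀ i, Fintype (ι i) := fun i => Fintype.ofFinite _
  let f : ∀ i, ι i → F i := fun i _ => ⟨algebraMap (A i) (K i) (x i) ^ p, hxF i⟩
  have hf : ∀ i l, ¬ ∃ b, b ^ p = f i l := fun i l =>
    not_pow_F0 (K i) (hxm i) (hx0 i) l.down (f i l) rfl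
  have hGM : GM p k (fun q : Σ i, ι i => e' q.1 (f q.1 q.2))
      (fun q : Fin n × G1 => e' q.1 (c q.1 q.2)) :=
    Pool.Agent.TH188.WP.Fam.main wd_prod p k L0 n (fun i => F i) e' φ hφe hφi hφf G1 ι f c
      fun i => by
        have hess := Pool.Agent.TH188.WP.essFinite_of_hasModel (hM i)
        exact Pool.Agent.TH188.WP.gm_surf p k (F i) (h2 i) (hM i) (ι i) G1 (f i) (hf i) (c i)
          (hc0 i)
  -- the Kummer extension
  let Y := {y : Fin n → Λ // (∀ i, y i ∈ suppG (𝒜 i) ∧ m • y i = 0) ∧ ∑ i, y i = 0}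
  have hfY : Finite Y := Subtype.finite
  obtain ⟨r1, ⟨eY⟩⟩ := Finite.exists_equiv_fin Y
  let ww : (Fin n → Λ) → E := fun y => ∏ i, e i (algebraMap (A i) (K i) (repG (𝒜 i) (y i)))
  let w : Fin r1 → E := fun l => ww (eY.symm l).1
  have hw0 : ∀ l, w l ≠ 0 := fun l => Finset.prod_ne_zero_iff.2 fun i _ =>
    (_root_.map_ne_zero _).2 (hAK i _ (repG_ne _ _))
  let lam : Fin r1 → Fin n × G1 → ℤ := fun l q =>
    Sum.elim (fun _ => 0) (Sum.elim (fun y => if y = (eY.symm l).1 q.1 then 1 else 0)
      (fun _ => 0)) q.2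
  have hwl : ∀ l, w l ^ m = ((∏ q, (e' q.1 (c q.1 q.2)) ^ lam l q : L0) : E) := by
    intro l
    have h3 : ∏ q, (e' q.1 (c q.1 q.2)) ^ lam l q =
        ∏ i, e' i ⟨algebraMap (A i) (K i) (repG (𝒜 i) ((eY.symm l).1 i)) ^ m,
          hrF i _ ((eY.symm l).2.1 i)⟩ := by
      rw [Fintype.prod_prod_type]
      refine Finset.prod_congr rfl fun i _ => ?_
      rw [Fintype.prod_sum_type, Fintype.prod_sum_type]
      have h4 : ∏ b : G0, (e' i (c i (Sum.inl b))) ^ lam l (i, Sum.inl b) = 1 :=
        Finset.prod_eq_one fun b _ => zpow_zero _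
      have h5 : ∏ b : Unit, (e' i (c i (Sum.inr (Sum.inr b)))) ^
          lam l (i, Sum.inr (Sum.inr b)) = 1 :=
        Finset.prod_eq_one fun b _ => zpow_zero _
      rw [h4, h5, one_mul, mul_one, Finset.prod_eq_single ((eY.symm l).1 i)]
      · change (e' i (c i (Sum.inr (Sum.inl ((eY.symm l).1 i))))) ^
          (if (eY.symm l).1 i = (eY.symm l).1 i then (1 : ℤ) else 0) = _
        rw [if_pos rfl, zpow_one]
        congr 1
        exact dif_pos ((eY.symm l).2.1 i)
      · intro a _ ha
        change (e' i (c i (Sum.inr (Sum.inl a)))) ^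
          (if a = (eY.symm l).1 i then (1 : ℤ) else 0) = 1
        rw [if_neg ha, zpow_zero]
      · intro h
        exact absurd (Finset.mem_univ _) h
    rw [h3]
    change (∏ i, e i _) ^ m = L0.val (∏ i, e' i _)
    rw [map_prod, ← Finset.prod_pow]
    refine Finset.prod_congr rfl fun i _ => ?_
    change _ = ((e' i _ : L0) : E)
    rw [he', ← map_pow]
  obtain ⟨d0, htr⟩ : ∃ d0 : ℕ, Algebra.trdeg k L0 = d0 := by
    have hfB : Algebra.FiniteType k B := hj.finiteType fun i => inferInstance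
    have h3 : Algebra.trdeg k L0 ≤ Algebra.trdeg k B := by
      rw [← Pool.Agent.W348.WTM.trdeg_frac k B E]
      exact _root_.trdeg_le_of_injective L0.val L0.val.injective
    have h4 : Algebra.trdeg k B < Cardinal.aleph0 := _root_.trdeg_lt_aleph0_of_finiteType
    exact Cardinal.lt_aleph0.1 (h3.trans_lt h4)
  have hGM1 := kummer_subM p L0 htr hm hGM w hw0 lam hwl
  let L1 := IntermediateField.adjoin L0 (Set.range w)
  have hcL1 : CharP L1 p := charP_of_injective_algebraMap (algebraMap k L1).injective p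
  -- the field of the quotient
  let KG : IntermediateField k E := F0 ℬ E
  have hcKG : CharP KG p := charP_of_injective_algebraMap (algebraMap k KG).injective p
  have hZ : ∀ b ∈ ℬ 0, algebraMap B E b ∈ KG := fun b hb => mem_F0_of_zero ℬ E hb
  have hL0K : ∀ y ∈ L0, y ∈ KG := by
    intro y hy
    have h1 : L0 ≤ KG := by
      rw [IntermediateField.adjoin_le_iff]
      rintro _ ⟨i, _, ⟨a, ha, b, hb, hb0, rfl⟩, rfl⟩
      refine ⟨j i a, hB i 0 a ha, j i b, hB i 0 b hb, ?_, ?_⟩
      · intro h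
        exact hb0 (hj.injective i (h.trans (map_zero _).symm))
      · rw [map_div₀, he, he]
    exact h1 hy
  have hprodE : ∀ a : ∀ i, A i, ∏ i, e i (algebraMap (A i) (K i) (a i)) =
      algebraMap B E (∏ i, j i (a i)) := by
    intro a
    rw [map_prod]
    exact Finset.prod_congr rfl fun i _ => he i (a i)
  have hwKG : ∀ l, w l ∈ KG := by
    intro l
    change ∏ i, e i _ ∈ KG
    rw [hprodE]
    apply hZ
    have h3 : ∏ i, j i (repG (𝒜 i) ((eY.symm l).1 i)) ∈ ℬ (∑ i, (eY.symm l).1 i) :=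
      SetLike.prod_mem_graded _ _ _ fun i _ => hB i _ _ (repG_mem ((eY.symm l).2.1 i).1)
    rwa [(eY.symm l).2.2] at h3
  have hL1K : ∀ x ∈ L1, x ∈ KG := by
    intro x hx
    induction hx using IntermediateField.adjoin_induction with
    | mem x hx =>
      obtain ⟨l, rfl⟩ := hx
      exact hwKG l
    | algebraMap x => exact hL0K x x.2
    | add x y _ _ h1 h2 => exact add_mem h1 h2
    | inv x _ h1 => exact inv_mem h1
    | mul x y _ _ h1 h2 => exact mul_mem h1 h2
  -- the `p`-th roots
  let V := {a : Fin n → ZMod p // ∑ i, (a i).val • π i = 0}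
  have hVf : Finite V := Subtype.finite
  obtain ⟨r, ⟨ev⟩⟩ := Finite.exists_equiv_fin V
  let W : (Fin n → ZMod p) → E := fun a => ∏ i, e i (algebraMap (A i) (K i) (x i ^ (a i).val))
  have hWK : ∀ a : V, W a.1 ∈ KG := by
    intro a
    change ∏ i, e i _ ∈ KG
    rw [hprodE]
    apply hZ
    have h3 : ∏ i, j i (x i ^ (a.1 i).val) ∈ ℬ (∑ i, (a.1 i).val • π i) :=
      SetLike.prod_mem_graded _ _ _ fun i _ => hB i _ _ (SetLike.pow_mem_graded _ (hxm i))
    rwa [a.2] at h3
  let W' : Fin r → KG := fun i => ⟨W (ev.symm i).1, hWK _⟩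
  have hgal' : ∀ y ∈ KG, y ∈ IntermediateField.adjoin L1 (Set.range fun i => (W' i : E)) := by
    intro y hy
    let M3 := IntermediateField.adjoin L1 (Set.range fun i => (W' i : E))
    have hM3 : ∀ x ∈ L1, x ∈ M3 := fun x hx => M3.algebraMap_mem (⟨x, hx⟩ : L1)
    have hM0 : ∀ x ∈ L0, x ∈ M3 := fun x hx => hM3 x (L1.algebraMap_mem (⟨x, hx⟩ : L0))
    have hMw3 : ∀ y : Fin n → Λ, (∀ i, y i ∈ suppG (𝒜 i) ∧ m • y i = 0) → ∑ i, y i = 0 →
        ww y ∈ M3 := by
      intro y h1 h2
      have h3 : ww y = w (eY ⟨y, h1, h2⟩) := by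
        change _ = ww (eY.symm (eY ⟨y, h1, h2⟩)).1
        rw [Equiv.symm_apply_apply]
      rw [h3]
      exact hM3 _ (IntermediateField.subset_adjoin L0 (Set.range w) (Set.mem_range_self _))
    have hMu3 : ∀ a : Fin n → ZMod p, ∑ i, (a i).val • π i = 0 → W a ∈ M3 := by
      intro a ha
      have h3 : W a = (W' (ev ⟨a, ha⟩) : E) := by
        change _ = W (ev.symm (ev ⟨a, ha⟩)).1
        rw [Equiv.symm_apply_apply]
      rw [h3]
      exact IntermediateField.subset_adjoin L1 (Set.range fun i => (W' i : E))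
        (Set.mem_range_self _)
    have hb : ∀ b ∈ ℬ 0, algebraMap B E b ∈ M3 := by
      intro b hb
      have h1 := zero_gen hj hB b hb
      clear hb
      induction h1 using Submodule.span_induction with
      | mem b hb =>
        obtain ⟨d, a, hd0, had, rfl⟩ := hb
        by_cases h0 : ∃ i, a i = 0
        · obtain ⟨i, hi⟩ := h0
          have h1 : ∏ i, j i (a i) = 0 :=
            Finset.prod_eq_zero (Finset.mem_univ i) (by rw [hi, map_zero])
          rw [h1, map_zero]
          exact zero_mem _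
        push Not at h0
        have hd : ∀ i, d i ∈ suppG (𝒜 i) := fun i => ⟨a i, had i, h0 i⟩
        let t : Fin n → Λ := fun i => tameC (p ^ s) m (d i)
        have ht : ∀ i, t i ∈ suppG (𝒜 i) ∧ m • t i = 0 := fun i =>
          ⟨(suppG (𝒜 i)).zsmul_mem (hd i) _, nsmul_tame hqm _⟩
        have ht0 : ∑ i, t i = 0 := by
          change ∑ i, tameC (p ^ s) m (d i) = 0
          rw [tame_sum, hd0]
          exact zsmul_zero _
        have hwi : ∀ i, ∃ α : ZMod p, wildC (p ^ s) m (d i) = α.val • π i := fun i =>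
          hπgen i _ ((suppG (𝒜 i)).zsmul_mem (hd i) _) (nsmul_wild hqm _)
        choose α hα using hwi
        have hα0 : ∑ i, (α i).val • π i = 0 := by
          rw [← Finset.sum_congr rfl fun i _ => hα i, wild_sum, hd0]
          exact zsmul_zero _
        have hdeg : ∀ i, repG (𝒜 i) (t i) * x i ^ (α i).val ∈ 𝒜 i (d i) := by
          intro i
          have h1 := SetLike.mul_mem_graded (repG_mem (ht i).1)
            (SetLike.pow_mem_graded (α i).val (hxm i))
          have h2 : t i + (α i).val • π i = d i := by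
            rw [← hα i]
            exact tame_add_wild hcop _
          rwa [h2] at h1
        have hne : ∀ i, repG (𝒜 i) (t i) * x i ^ (α i).val ≠ 0 := fun i =>
          mul_ne_zero (repG_ne _ _) (pow_ne_zero _ (hx0 i))
        have hfrac : ∀ i, algebraMap (A i) (K i) (a i) /
            algebraMap (A i) (K i) (repG (𝒜 i) (t i) * x i ^ (α i).val) ∈ F i := fun i =>
          div_mem_F0 (K i) (had i) (hdeg i) (hne i)
        have h3 : algebraMap B E (∏ i, j i (a i)) =
            (∏ i, e i (algebraMap (A i) (K i) (a i) /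
              algebraMap (A i) (K i) (repG (𝒜 i) (t i) * x i ^ (α i).val))) *
            (ww t * W α) := by
          change _ = _ * ((∏ i, e i _) * (∏ i, e i _))
          rw [← hprodE, ← Finset.prod_mul_distrib, ← Finset.prod_mul_distrib]
          refine Finset.prod_congr rfl fun i _ => ?_
          rw [← map_mul, ← map_mul, ← map_mul, div_mul_cancel₀]
          exact hAK i _ (hne i)
        rw [h3]
        exact mul_mem (prod_mem fun i _ => hM0 _ (hL0 i _ (hfrac i)))
          (mul_mem (hMw3 t ht ht0) (hMu3 α hα0))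
      | zero =>
        rw [map_zero]
        exact zero_mem _
      | add b c _ _ h1 h2 =>
        rw [map_add]
        exact add_mem h1 h2
      | smul c b _ h1 =>
        have h3 : algebraMap B E (c • b) = algebraMap k E c * algebraMap B E b := by
          rw [Algebra.smul_def, map_mul, ← IsScalarTower.algebraMap_apply]
        rw [h3]
        exact mul_mem (hM0 _ (L0.algebraMap_mem c)) h1
    obtain ⟨a, ha, b, hb', hb0, rfl⟩ := hy
    exact div_mem (hb a ha) (hb b hb')
  -- the tower
  let _ : Algebra L1 KG := RingHom.toAlgebra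
    { toFun := fun x => ⟨x, hL1K x x.2⟩
      map_one' := rfl
      map_mul' := fun a b => rfl
      map_zero' := rfl
      map_add' := fun a b => rfl }
  have hLKv : ∀ y : L1, KG.val (algebraMap L1 KG y) = y := fun y => rfl
  have tL : IsScalarTower k L1 KG := IsScalarTower.of_algebraMap_eq fun c => by
    apply Subtype.ext
    rfl
  have tL' : IsScalarTower L1 KG E := IsScalarTower.of_algebraMap_eq fun c => rfl
  have hvi : Function.Injective KG.val := KG.val.injective
  let μ : Fin r → (Σ i, ι i) → ZMod p := fun l q => (ev.symm l).1 q.1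
  have hW' : ∀ l, W' l ^ p = algebraMap L1 KG (Pool.Agent.TH188.WQ.pw p
      (fun q : Σ i, ι i => algebraMap L0 L1 (e' q.1 (f q.1 q.2))) (μ l)) := by
    intro l
    apply hvi
    rw [map_pow, hLKv]
    change (∏ i, e i (algebraMap (A i) (K i) (x i ^ ((ev.symm l).1 i).val))) ^ p =
      L1.val (∏ q : Σ i, ι i, (algebraMap L0 L1 (e' q.1 (f q.1 q.2))) ^ (μ l q).val)
    rw [map_prod, Fintype.prod_sigma, ← Finset.prod_pow]
    refine Finset.prod_congr rfl fun i _ => ?_
    by_cases h : π i ≠ 0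
    · rw [Fintype.prod_eq_single (⟨h⟩ : ι i) (fun l hl => absurd (Subsingleton.elim _ _) hl)]
      rw [map_pow (algebraMap (A i) (K i))]
      change _ = ((e' i (f i ⟨h⟩) : L0) : E) ^ ((ev.symm l).1 i).val
      rw [he']
      change _ = (e i (algebraMap (A i) (K i) (x i) ^ p)) ^ ((ev.symm l).1 i).val
      have h5 : ∀ (y : K i) (v : ℕ), (e i (y ^ v)) ^ p = (e i (y ^ p)) ^ v := by
        intro y v
        rw [map_pow, map_pow, ← pow_mul, ← pow_mul, mul_comm]
      exact h5 _ _
    · rw [Finset.prod_eq_one (fun l _ => absurd l.down h)]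
      push Not at h
      have h3 : x i = 1 := by
        change repG (𝒜 i) (π i) = 1
        rw [h, repG_zero]
      rw [h3, one_pow, map_one, map_one, one_pow]
  have hgen' : IntermediateField.adjoin L1 (Set.range W') = ⊤ := by
    let ψ : KG →ₐ[L1] E := IsScalarTower.toAlgHom L1 KG E
    rw [eq_top_iff]
    intro y _
    have h1 : ψ y ∈ (IntermediateField.adjoin L1 (Set.range W')).map ψ := by
      rw [IntermediateField.adjoin_map, ← Set.range_comp]
      exact hgal' y y.2
    obtain ⟨y', hy', h2⟩ := h1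
    have h3 : y' = y := ψ.injective h2
    rw [← h3]
    exact hy'
  have hL01 : Function.Injective (algebraMap L0 L1) := (algebraMap L0 L1).injective
  obtain ⟨T, I, hT, hI, M, Γ', hF', hR'⟩ := Pool.Agent.TH188.WQ.tower_mul p KG hGM1 (fun q =>
      Submonoid.subset_closure ⟨(q.1, Sum.inr (Sum.inr ())), rfl⟩) (fun q h => by
        have h3 : e' q.1 (f q.1 q.2) = 0 := hL01 (h.trans (map_zero _).symm)
        have h4 : f q.1 q.2 = 0 := (e' q.1).injective (h3.trans (map_zero _).symm)
        exact pow_ne_zero p (hAK q.1 _ (hx0 q.1)) (congrArg Subtype.val h4)) r W' μ hW' hgen'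
  have hF2 : Fn M (fun b : G0 => algebraMap L1 KG (algebraMap L0 L1
      (e' b.1 (c b.1 (Sum.inl b))))) (fun b => Γ' (b.1, Sum.inl b)) :=
    fun b t => hF' (b.1, Sum.inl b) t
  -- the ring of invariants
  have hBK : ∀ b : B, b ∈ Inv → algebraMap B E b ∈ KG := fun b hb => hZ b ((hInv b).1 hb)
  let ρI : Inv →+* KG :=
    { toFun := fun b => ⟨algebraMap B E b, hBK b b.2⟩
      map_one' := Subtype.ext (map_one (algebraMap B E))
      map_mul' := fun a b => Subtype.ext (map_mul (algebraMap B E) _ _)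
      map_zero' := Subtype.ext (map_zero (algebraMap B E))
      map_add' := fun a b => Subtype.ext (map_add (algebraMap B E) _ _) }
  let _ : Algebra Inv KG := ρI.toAlgebra
  have hρ : ∀ b : Inv, KG.val (algebraMap Inv KG b) = algebraMap B E b := fun b => rfl
  have tI : IsScalarTower k Inv KG := IsScalarTower.of_algebraMap_eq fun c => by
    apply Subtype.ext
    exact IsScalarTower.algebraMap_apply k B E c
  have hρi : Function.Injective (algebraMap Inv KG) := fun a b hab =>
    Subtype.ext (IsFractionRing.injective B E (congrArg KG.val hab))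
  have hfs : FaithfulSMul Inv KG := (faithfulSMul_iff_algebraMap_injective Inv KG).2 hρi
  have hfr : IsFractionRing Inv KG := by
    refine IsFractionRing.of_field _ _ fun y => ?_
    obtain ⟨a, ha, b, hb, hb0, hab⟩ := y.2
    refine ⟨⟨a, (hInv a).2 ha⟩, ⟨b, (hInv b).2 hb⟩, ?_⟩
    apply hvi
    rw [map_div₀, hρ, hρ]
    exact hab
  have hft : Algebra.FiniteType k Inv := by
    have hfB : Algebra.FiniteType k B := hj.finiteType fun i => inferInstance
    refine hart k B Inv fun b => ?_
    exact (hintB b).tower_top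
  obtain ⟨T', I', hT', hI', hM'⟩ := LM_of_fn M _ _ hF2 hR' Inv aG (by
    intro b
    apply hvi
    rw [hLKv, hρ]
    symm
    change ((e' b.1 (c b.1 (Sum.inl b)) : L0) : E) =
      algebraMap B E (j b.1 ((eS b.1).symm b.2).1)
    rw [he', ← he]
    congr 1
    change ((if h : b.1 = b.1 then _ else _ : F b.1) : K b.1) = _
    rw [dif_pos rfl]) (by
      intro a
      have h1 : IsIntegral R0 ((IsScalarTower.toAlgHom R0 Inv B) a) := hintB a
      exact (isIntegral_algHom_iff (IsScalarTower.toAlgHom R0 Inv B)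
        Subtype.val_injective).1 h1)
  exact ⟨KG, inferInstance, inferInstance, inferInstance, tI, hfr, ⟨T, I, hT, hI, M, hR'⟩, T', I',
    hT', hI', hM'⟩

end main

end Pool.Agent.Q83.ZQ
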