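import Pool.Agent.Q83.ZQ.Ab
import Pool.Agent.Q83.ZQ.Gr

/-! Regular models over the integers, and local uniformization, from models and charts. -/

set_option autoImplicit false

open AlgebraicGeometry CategoryTheory Pool.Agent.W558 Pool.Agent.W558.WT

namespace Pool.Agent.Q83.ZQ

/-- A field of fractions with a smooth projective model over a finite field has a regular model
which is proper over `ℤ`. -/
theorem reg_of_model {k Inv : Type} [Field k] [Finite k] [CommRing Inv] [IsDomain Inv]
    [Algebra k Inv] {N : Type} [Field N] [Algebra k N] [Algebra Inv N] [IsFractionRing Inv N]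
    (h : ∃ (T I : Type) (_ : Finite T) (_ : Fintype I) (M : LM (⊥ : Subalgebra k N) ⊤ T I),
        Frc M) :
    ∃ (X' : Scheme.{0}) (_ : IsIntegral X') (g' : X' ⟶ Spec (CommRingCat.of ℤ)),
      IsProper g' ∧
      (∀ x : X',
        (((Module.finrank (IsLocalRing.ResidueField (X'.presheaf.stalk x))
            (IsLocalRing.CotangentSpace (X'.presheaf.stalk x)) : ℕ∞)) : WithBot ℕ∞)
          = ringKrullDim (X'.presheaf.stalk x)) ∧
      Nonempty (X'.functionField ≃+* FractionRing Inv) := by
  obtain ⟨T, I, hT, hI, M, hR⟩ := h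
  obtain ⟨X', hX', g', h3, h4, ⟨h5⟩⟩ := Pool.Agent.W418.Z.regular_of_LM M (fun t x => by
    obtain ⟨a, ha, b, hb, hb0, h⟩ := hR t x
    exact ⟨a, ha, b, hb, hb0, by rw [h, div_eq_mul_inv]⟩)
  exact ⟨X', hX', g', h3, h4, ⟨h5.trans (FractionRing.algEquiv Inv N).symm.toRingEquiv⟩⟩

/-- The local domain `R` admits local uniformization: for every valuation ring `V` of the fraction
field `K` of `R` centred on `R` there is a finitely generated `R`-algebra `B` in `V` whose
localization at the centre `P` of `V` is regular. -/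
def LUnif (R : Type) [CommRing R] : Prop :=
  ∀ (K : Type) [Field K] [Algebra R K] [IsFractionRing R K] (V : ValuationSubring K),
    (∀ r : R, algebraMap R K r ∈ V) →
    (∀ r : R, r ∈ nonunits R ↔ V.valuation (algebraMap R K r) < 1) →
    ∃ B : Subalgebra R K, B.FG ∧ (∀ b : B, (b : K) ∈ V) ∧
      ∃ P : Ideal B, ∃ (_ : P.IsPrime),
        (∀ b : B, b ∈ P ↔ V.valuation (b : K) < 1) ∧
        IsRegularLocalRing (Localization.AtPrime P)

/-- The local rings of a domain with smooth charts over it admit local uniformization. -/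
theorem lu_of_charts {k Inv : Type} [Field k] [CommRing Inv] [IsDomain Inv]
    [Algebra k Inv] {N : Type} [Field N] [Algebra k N] [Algebra Inv N] [IsScalarTower k Inv N]
    [IsFractionRing Inv N]
    (h : ∃ (T I : Type) (_ : Finite T) (_ : Fintype I),
        Nonempty (LM (IsScalarTower.toAlgHom k Inv N).range
          (IsScalarTower.toAlgHom k Inv N).range T I))
    (q : Ideal Inv) [q.IsPrime] (R : Type) [CommRing R] [Algebra Inv R]
    [IsLocalization.AtPrime R q] : LUnif R := by
  obtain ⟨T, I, hT, hI, ⟨M⟩⟩ := h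
  intro K' _ _ _ V hV1 hV2
  have hR : IsLocalRing R := IsLocalization.AtPrime.isLocalRing R q
  obtain ⟨B', h1, h2, P, hP, h3, h4, h5⟩ := uniformized_of_LM2 M q (R := R) (K := K') V hV1
    (fun r => (IsLocalRing.mem_maximalIdeal r).trans (hV2 r))
  exact ⟨B', h1, h2, P, hP, h3, (IsRegularLocalRing.iff_finrank_cotangentSpace _).2 h5.symm⟩

end Pool.Agent.Q83.ZQ
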