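import Pool.Agent.TH188.VQ.Fin
import Pool.Agent.W418.Z.Reg

/-! Quotients of products of surfaces over finite fields by vector fields: regular models which are
proper over `ℤ`. The model is the one of `Pool.Agent.TH188.VQ.exists_model_fld`. -/

set_option autoImplicit false

open Pool.Agent.W558 Pool.Agent.TH188.WP Pool.Agent.TH188.WQ Pool.Agent.TH188.VQ TensorProduct
  AlgebraicGeometry CategoryTheory

namespace Pool.Agent.Q83.ZQ

/-- The field of common constants of vector fields on a product of surfaces over a finite field. -/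
theorem vf_reg (p : ℕ) [Fact p.Prime] {k K : Type} [Field k] [Finite k] [CharP k p] [Field K]
    [Algebra k K] {n : ℕ} (E : Fin n → IntermediateField k K) (D : Fin n → Derivation k K K)
    (h2 : ∀ i, Algebra.trdeg k (E i) = 2) (hM : ∀ i, HasModel k (E i))
    (hdis : Function.Injective (mulHom E)) (hgen : cps E = ⊤)
    (hDE : ∀ i, ∀ x ∈ E i, D i x ∈ E i) (hD0 : ∀ i l, i ≠ l → ∀ x ∈ E l, D i x = 0)
    (hDp : (∀ i, ∀ x ∈ E i, (D i)^[p] x = 0) ∨ ∃ μ : Fin n → k, (∀ i, μ i ≠ 0) ∧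
      ∀ i, ∀ x ∈ E i, (D i)^[p] x = μ i ^ (p - 1) • D i x) (V : Set (Fin n → k))
    (N : IntermediateField k K) (hN : ∀ x, x ∈ N ↔ ∀ v ∈ V, ∑ i, v i • D i x = 0) :
    ∃ (X' : Scheme.{0}) (_ : IsIntegral X') (g' : X' ⟶ Spec (CommRingCat.of ℤ)),
      IsProper g' ∧
      (∀ x : X',
        (((Module.finrank (IsLocalRing.ResidueField (X'.presheaf.stalk x))
            (IsLocalRing.CotangentSpace (X'.presheaf.stalk x)) : ℕ∞)) : WithBot ℕ∞)
          = ringKrullDim (X'.presheaf.stalk x)) ∧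
      Nonempty (X'.functionField ≃+* N) := by
  obtain ⟨T, I, hT, hI, M, Γ, hF, hR⟩ := exists_model_fld p E D mulHomInj h2 hM hdis hgen hDE hD0
    hDp V N hN Empty (fun b => b.elim) (fun b => b.elim) (fun b => b.elim)
  exact Pool.Agent.W418.Z.regular_of_LM M (fun t x => by
    obtain ⟨a, ha, b, hb, hb0, h⟩ := hR t x
    exact ⟨a, ha, b, hb, hb0, by rw [h, div_eq_mul_inv]⟩)

end Pool.Agent.Q83.ZQ
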