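import Pool.Agent.Q83.ZQ.Cor
import Pool.Agent.Q83.ZQ.Vf
import Pool.Agent.W558.WT.Asm3

/-!
MP_4d1008_ag: regular models, proper over `ℤ`, of the quotients of products of surfaces over finite
fields of characteristic `p` by finite group schemes which are not reduced, in all even dimensions.

1. Finite diagonalizable group schemes `D` which act factorwise, if the order of the image of `D` in
the automorphism group scheme of each factor is not divisible by `p ^ 2`; for example the quotients
`(X_1 × ... × X_n) / μ_N` by the diagonal action of `μ_N`, `N = p * m`, `m` prime to `p`. In terms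
of algebras: `D = Spec k[Λ]` for a finite abelian group `Λ`, the coordinate rings `A_i` of the `X_i`
are `Λ`-graded, and the coordinate ring of the quotient is the part of degree zero of the tensor
product of the `A_i`.

2. Vector fields: let `D_i` be a vector field on the surface `X_i` with `(D_i) ^ p = 0` for all `i`,
or `(D_i) ^ p = (μ_i) ^ (p - 1) * D_i`, `μ_i ≠ 0` in `k`, for all `i`. The quotients of the product
of the `X_i` by any set of linear combinations `∑ v_i * D_i` with coefficients in `k`, that is, by
subgroup schemes of `(α_p) ^ n` and `(μ_p) ^ n` for actions of `α_p`, `μ_p` on the surfaces; for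
example the quotient of affine space of dimension `2 n` by `D_1 + ... + D_n` for vector fields `D_i`
on the plane.

The proof: the constructions of helper214 (`Pool.Agent.TH214.Q.quotGr`) and helper188
(`Pool.Agent.TH188.VQ`), used there for the resolution of the affine quotients over perfect fields,
are carried out for the function field of the quotient: they give a smooth projective model of this
field, with homogeneous coordinates in the field. Over a finite field the scheme glued from its
charts is regular and proper over `ℤ`.
-/

set_option autoImplicit false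

open AlgebraicGeometry CategoryTheory

namespace Pool.Agent.Q83.ZQ.GS

/-- The algebra `B` with the homomorphisms `j i : A i → B` is the tensor product over `k` of the
algebras `A i`: homomorphisms `f i` from the `A i` to a commutative `k`-algebra `S` correspond to
homomorphisms `g` from `B` to `S`. So `Spec B` is the product of the `Spec (A i)` over `k`. -/
def IsTensorProduct {k : Type} [Field k] {n : ℕ} {A : Fin n → Type} [∀ i, CommRing (A i)]
    [∀ i, Algebra k (A i)] {B : Type} [CommRing B] [Algebra k B] (j : ∀ i, A i →ₐ[k] B) :
    Prop :=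
  ∀ (S : Type) [CommRing S] [Algebra k S] (f : ∀ i, A i →ₐ[k] S),
    ∃! g : B →ₐ[k] S, ∀ i a, g (j i a) = f i a

/-- The coordinate ring `k[H_0 / H_j, ..., H_N / H_j]` of the chart `H_j ≠ 0` of the projective
variety over `k` with the homogeneous coordinates `H_0, ..., H_N` in a field `K`. -/
def chart (k : Type) {K : Type} [Field k] [Field K] [Algebra k K] {N : ℕ}
    (H : Fin (N + 1) → K) (j : Fin (N + 1)) : Subalgebra k K :=
  Algebra.adjoin k (Set.range fun l => H l / H j)

section graded

variable {k A : Type} [Field k] [CommRing A] [Algebra k A] {Λ : Type} [AddCommGroup Λ]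
  [DecidableEq Λ]

/-- The subgroup of `Λ` generated by the degrees of the nonzero homogeneous elements of a
`Λ`-graded algebra, the character group of the image of the group scheme `Spec k[Λ]` in the
automorphism group scheme of the algebra. -/
def degreeGroup (𝒜 : Λ → Submodule k A) : AddSubgroup Λ :=
  AddSubgroup.closure {x | ∃ a ∈ 𝒜 x, a ≠ 0}

/-- The part of degree zero of a graded algebra, the algebra of invariants of the group scheme
`Spec k[Λ]`. Its spectrum is the quotient of `Spec A` by the group scheme. -/
def degreeZero (𝒜 : Λ → Submodule k A) [GradedAlgebra 𝒜] : Subalgebra k A where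
  carrier := 𝒜 0
  mul_mem' := fun ha hb => by
    have h := SetLike.mul_mem_graded ha hb
    rwa [add_zero] at h
  add_mem' := fun ha hb => Submodule.add_mem _ ha hb
  algebraMap_mem' := fun c => by
    rw [Algebra.algebraMap_eq_smul_one]
    exact Submodule.smul_mem _ _ (SetLike.one_mem_graded 𝒜)

/-- The quotient of the affine variety `Spec A` by the group scheme `Spec k[Λ]`, that is, the
spectrum of the part of degree zero, is birational to a smooth projective variety. Here `K` is the
fraction field of `A`, the projective variety is given by homogeneous coordinates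
`H_0, ..., H_N` in `K`: its charts are smooth over `k`, and its function field, the field of
quotients of elements of a chart, consists of the quotients of elements of `A` of degree zero. For
surfaces over finite fields this condition is always satisfied, by the resolution of
singularities of surfaces. -/
def HasSmoothProjectiveQuotient (K : Type) [Field K] [Algebra k K] [Algebra A K]
    (𝒜 : Λ → Submodule k A) : Prop :=
  ∃ (N : ℕ) (H : Fin (N + 1) → K), (∀ l, H l ≠ 0) ∧
    (∀ j, Algebra.Smooth k (chart k H j)) ∧
    ∀ j (y : K), (∃ a ∈ 𝒜 0, ∃ b ∈ 𝒜 0, b ≠ 0 ∧ y = algebraMap A K a / algebraMap A K b) ↔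
      ∃ u ∈ chart k H j, ∃ v ∈ chart k H j, v ≠ 0 ∧ y = u / v

end graded

/-- The field `E` is the function field of a smooth projective variety over `k`, given by
homogeneous coordinates `H 0, ..., H N` in `E`: the coordinate rings `k[H 0 / H i, ..., H N / H i]`
of the charts are smooth over `k` and have the fraction field `E`. For function fields of surfaces
over finite fields this condition is always satisfied, by the resolution of singularities of
surfaces. -/
def HasSmoothProjectiveModel (k E : Type) [Field k] [Field E] [Algebra k E] : Prop :=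
  ∃ (N : ℕ) (H : Fin (N + 1) → E), (∀ i, H i ≠ 0) ∧ ∀ i,
    Algebra.Smooth k (chart k H i) ∧ IsFractionRing (chart k H i) E

section vector

variable {k K : Type} [Field k] [Field K] [Algebra k K] {n : ℕ}
  (E : Fin n → IntermediateField k K) (D : Fin n → Derivation k K K)

/-- The subfields `E 1, ..., E n` of `K` are linearly disjoint over `k`: the homomorphism from their
tensor product over `k` to `K`, which maps `x 1 ⊗ ... ⊗ x n` to `x 1 * ... * x n`, is
injective. -/
def LinearlyDisjoint : Prop :=
  Function.Injective (PiTensorProduct.lift ((MultilinearMap.mkPiAlgebra k (Fin n) K).compLinearMap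
    fun i => (E i).val.toLinearMap))

/-- The field `K` is generated by its linearly disjoint subfields `E 1, ..., E n`, which are
function fields of smooth projective surfaces over `k`. -/
structure IsProductOfSurfaces : Prop where
  surface : ∀ i, Algebra.trdeg k (E i) = 2 ∧ HasSmoothProjectiveModel k (E i)
  disjoint : LinearlyDisjoint E
  generate : IntermediateField.adjoin k (⋃ i, (E i : Set K)) = ⊤

/-- The derivation `D i` of `K` maps `E i` to `E i` and vanishes on the `E l`, `l ≠ i`, and either
`(D i) ^ p = 0` on `E i` for all `i`, or there are elements `μ i ≠ 0` of `k` such that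
`(D i) ^ p = μ i ^ (p - 1) * D i` on `E i` for all `i`. -/
structure AreFieldsOnFactors (p : ℕ) : Prop where
  maps : ∀ i, ∀ x ∈ E i, D i x ∈ E i
  vanish : ∀ i l, i ≠ l → ∀ x ∈ E l, D i x = 0
  power : (∀ i, ∀ x ∈ E i, (D i)^[p] x = 0) ∨
    ∃ μ : Fin n → k, (∀ i, μ i ≠ 0) ∧ ∀ i, ∀ x ∈ E i, (D i)^[p] x = μ i ^ (p - 1) • D i x

end vector

/-- Every integral scheme of finite type over `ℤ` whose function field is isomorphic to `F` has a
regular model which is proper over `ℤ`. -/
def HasRegularProperModels (F : Type) [Field F] : Prop :=
  ∀ (Y : Scheme.{0}) (_ : IsIntegral Y) (g : Y ⟶ Spec (CommRingCat.of ℤ))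
    (_ : LocallyOfFiniteType g) (_ : QuasiCompact g) (_ : Nonempty (Y.functionField ≃+* F)),
    ∃ (X' : Scheme.{0}) (_ : IsIntegral X') (g' : X' ⟶ Spec (CommRingCat.of ℤ)),
      IsProper g' ∧
      (∀ x : X',
        (((Module.finrank (IsLocalRing.ResidueField (X'.presheaf.stalk x))
            (IsLocalRing.CotangentSpace (X'.presheaf.stalk x)) : ℕ∞)) : WithBot ℕ∞)
          = ringKrullDim (X'.presheaf.stalk x)) ∧
      Nonempty (X'.functionField ≃+* Y.functionField)

/-- Let `p` be a prime and `k` a finite field of characteristic `p`.

1. Let `Λ` be a finite abelian group and `D = Spec k[Λ]` the corresponding diagonalizable group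
scheme. Let `Spec (A i)`, `i < n`, be affine surfaces over `k` with an action of `D`: the `A i` are
`Λ`-graded domains of finite type and of dimension 2 over `k`. Suppose that the order of the
subgroup of `Λ` generated by the degrees of the homogeneous elements of `A i` is not divisible by
`p ^ 2`, and that the quotient of `Spec (A i)` by `D` is birational to a smooth projective surface
(this is always the case). Let `Spec B` be the product of the surfaces over `k`, assumed to be
integral, with the diagonal action of `D`: the grading `ℬ` of `B` such that the homomorphisms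
`A i → B` preserve the degrees. Then every integral scheme `Y` of finite type over `ℤ` which is
birational to the quotient of `Spec B` by `D` (its function field is isomorphic to the field of
fractions of the part of `B` of degree zero) has a regular model which is proper over `ℤ`.

2. Let the field extension `K` of `k` be generated by linearly disjoint subfields `E 1, ..., E n`,
which are function fields of smooth projective surfaces over `k`. Let `D i` be derivations of `K`
over `k` which map `E i` to `E i` and vanish on the `E l`, `l ≠ i`. Suppose that `(D i) ^ p = 0` on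
`E i` for all `i`, or that there are elements `μ i ≠ 0` of `k` with
`(D i) ^ p = μ i ^ (p - 1) * D i` on `E i` for all `i`. Let `N` be the field of common constants of
the derivations `∑ i, v i * D i`, `v ∈ V`, for a set `V` of vectors in `k ^ n`: the function field
of the quotient of the product of the surfaces by these vector fields. Then every integral scheme
`Y` of finite type over `ℤ` whose function field is isomorphic to `N` has a regular model which is
proper over `ℤ`. -/
theorem result (p : ℕ) [Fact p.Prime] (k : Type) [Field k] [Finite k] [CharP k p] :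
    (∀ (Λ : Type) [AddCommGroup Λ] [Finite Λ] [DecidableEq Λ] (n : ℕ)
      (A K : Fin n → Type) [∀ i, CommRing (A i)] [∀ i, IsDomain (A i)] [∀ i, Algebra k (A i)]
      [∀ i, Algebra.FiniteType k (A i)] [∀ i, Field (K i)]
      [∀ i, Algebra k (K i)] [∀ i, Algebra (A i) (K i)] [∀ i, IsScalarTower k (A i) (K i)]
      [∀ i, IsFractionRing (A i) (K i)] (𝒜 : ∀ i, Λ → Submodule k (A i))
      [∀ i, GradedAlgebra (𝒜 i)] (B : Type) [CommRing B] [IsDomain B] [Algebra k B]
      (j : ∀ i, A i →ₐ[k] B) (ℬ : Λ → Submodule k B) [GradedAlgebra ℬ],
      (∀ i, Algebra.trdeg k (A i) = 2) → (∀ i, ¬ p ^ 2 ∣ Nat.card (degreeGroup (𝒜 i))) →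
      (∀ i, HasSmoothProjectiveQuotient (K i) (𝒜 i)) →
      IsTensorProduct j → (∀ i x, ∀ a ∈ 𝒜 i x, j i a ∈ ℬ x) →
      HasRegularProperModels (FractionRing (degreeZero ℬ))) ∧
    ∀ (K : Type) [Field K] [Algebra k K] (n : ℕ) (E : Fin n → IntermediateField k K)
      (D : Fin n → Derivation k K K) (V : Set (Fin n → k)) (N : IntermediateField k K),
      IsProductOfSurfaces E → AreFieldsOnFactors E D p →
      (∀ x, x ∈ N ↔ ∀ v ∈ V, ∑ i, v i • D i x = 0) →
      HasRegularProperModels N := by
  refine ⟨?_, ?_⟩
  · intro Λ _ _ _ n A K _ _ _ _ _ _ _ _ _ 𝒜 _ B _ _ _ j ℬ _ hA h𝒜 hq hj hℬ Y _ g _ _ hY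
    have hj' : Pool.Agent.W558.WT.IsTP j := by
      refine ⟨fun S _ _ f => (hj S f).exists, fun S _ _ g g' h => ?_⟩
      exact (hj S fun i => g.comp (j i)).unique (fun i a => rfl) fun i a => (h i a).symm
    have hcl : ∀ i, Pool.Agent.TH214.Q.suppG (𝒜 i) = degreeGroup (𝒜 i) := by
      intro i
      apply le_antisymm
      · intro x hx
        exact AddSubgroup.subset_closure hx
      · unfold degreeGroup
        rw [AddSubgroup.closure_le]
        intro x hx
        exact hx
    have hm' : ∀ i, Algebra.trdeg k (Pool.Agent.TH214.Q.F0 (𝒜 i) (K i)) = 2 ∧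
        Pool.Agent.W558.HasModel k (Pool.Agent.TH214.Q.F0 (𝒜 i) (K i)) := by
      intro i
      obtain ⟨N, H, h1, h2, h3⟩ := hq i
      exact Pool.Agent.TH214.Q.modGr (𝒜 i) (K i) (hA i) N H h1 h2 h3
    obtain ⟨N, i1, i2, i3, i4, i5, hmod, -⟩ := Pool.Agent.Q83.ZQ.quotGr_core
      Pool.Agent.W558.wt_art p k n A K B j hj' 𝒜 ℬ hℬ
      (fun i => by rw [hcl i]; exact h𝒜 i) (fun i => (hm' i).1) (fun i => (hm' i).2)
      (degreeZero ℬ) (fun b => Iff.rfl)
    obtain ⟨X', hX', g', h1, h2, ⟨h3⟩⟩ := Pool.Agent.Q83.ZQ.reg_of_model
      (k := k) (Inv := degreeZero ℬ) hmod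
    obtain ⟨ε⟩ := hY
    exact ⟨X', hX', g', h1, h2, ⟨h3.trans ε.symm⟩⟩
  · intro K _ _ n E D V N hE hD hN Y _ g _ _ hY
    have hmod : ∀ (E : Type) [Field E] [Algebra k E], HasSmoothProjectiveModel k E →
        Pool.Agent.W558.HasModel k E := by
      rintro E _ _ ⟨N, H, h0, h1⟩
      refine ⟨N, H, h0, fun i => ⟨(h1 i).1, fun x => ?_⟩⟩
      have h2 := (h1 i).2
      obtain ⟨a, b, hb, rfl⟩ := IsFractionRing.div_surjective (A := chart k H i) x
      exact ⟨a, a.2, b, b.2, fun h => nonZeroDivisors.ne_zero hb (Subtype.ext h),
        div_eq_mul_inv _ _⟩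
    obtain ⟨X', hX', g', h1, h2, ⟨h3⟩⟩ := Pool.Agent.Q83.ZQ.vf_reg p E D
      (fun i => (hE.surface i).1) (fun i => hmod _ (hE.surface i).2) hE.disjoint hE.generate
      hD.maps hD.vanish hD.power V N hN
    obtain ⟨ε⟩ := hY
    exact ⟨X', hX', g', h1, h2, ⟨h3.trans ε.symm⟩⟩

end Pool.Agent.Q83.ZQ.GS
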